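import Mathlib

/-!
# Single-server PIR with reusable and single-use side information: protocols of rate `1/2`

Let `K = (m + 1) n` and let the messages be divided (after a secret random permutation) into `m + 1`
classes of size `n` with distinct labels `a ∈ F_q`. The server answers `∑ X_i` and `∑ a_i X_i`; a
suitable combination of them does not contain the messages of a given class. If
`M₁ = m (n - s) - 1`, then for every `(w, r)` there is a class without `w` which contains at most
`n - s - 1` elements of `r`, so that this combination contains at most `M₂ = n + (m - 1) s - 1`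
messages which are not in `r ∪ {w}`.
-/

set_option autoImplicit false

namespace Pool.Agent.Results.MP_c9b02e_lc.BetterRate

open Finset

/-- The possible values `(w, r, s)` of `(W, R, S)`: `|r| = M₁`, `|s| = M₂`, and `r`, `s`, `{w}` are
disjoint. (The triple `(W, R, S)` of the user is uniform on this set.) -/
abbrev Trip (K M₁ M₂ : ℕ) : Type :=
  {t : Fin K × Finset (Fin K) × Finset (Fin K) //
    t.2.1.card = M₁ ∧ t.2.2.card = M₂ ∧ Disjoint t.2.1 t.2.2 ∧ t.1 ∉ t.2.1 ∧ t.1 ∉ t.2.2}

/-- A protocol for messages `X_1, …, X_K ∈ F ^ n`: `query t q` is the probability that the user sends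
the query `q` if `(W, R, S) = t`, and `answer q X` is the answer of the server. -/
structure Protocol (K M₁ M₂ : ℕ) (F : Type) (n : ℕ) where
  /-- the set of queries -/
  Qry : Type
  /-- the set of answers -/
  Ans : Type
  finQ : Fintype Qry
  finA : Fintype Ans
  /-- the conditional distribution of the query -/
  query : Trip K M₁ M₂ → Qry → ℝ
  query_nonneg : ∀ t q, 0 ≤ query t q
  query_sum : ∀ t, ∑ q, query t q = 1
  /-- the answer of the server -/
  answer : Qry → (Fin K → Fin n → F) → Ans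

attribute [instance] Protocol.finQ Protocol.finA

namespace Protocol

variable {K M₁ M₂ : ℕ} {F : Type} {n : ℕ} (P : Protocol K M₁ M₂ F n)

/-- `ℙ((W, R, S) = t, Q = q)`, where `(W, R, S)` is uniform on `Trip K M₁ M₂`. -/
noncomputable def prob (t : Trip K M₁ M₂) (q : P.Qry) : ℝ :=
  P.query t q / Fintype.card (Trip K M₁ M₂)

/-- `ℙ(Q = q)` -/
noncomputable def probQ (q : P.Qry) : ℝ := ∑ t, P.prob t q

/-- `ℙ(W = w, R = r, Q = q)` -/
noncomputable def probWRQ (w : Fin K) (r : Finset (Fin K)) (q : P.Qry) : ℝ :=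
  ∑ t ∈ univ.filter (fun t : Trip K M₁ M₂ => t.1.1 = w ∧ t.1.2.1 = r), P.prob t q

/-- `ℙ(W = w, R = r)` -/
noncomputable def probWR (w : Fin K) (r : Finset (Fin K)) : ℝ := ∑ q, P.probWRQ w r q

/-- Privacy: `ℙ(W = w, R = r, Q = q) = ℙ(W = w, R = r) ℙ(Q = q)` for all `q` and all `w ∉ r`,
`|r| = M₁`. -/
def Private : Prop :=
  ∀ (q : P.Qry) (w : Fin K) (r : Finset (Fin K)), r.card = M₁ → w ∉ r →
    P.probWRQ w r q = P.probWR w r * P.probQ q

/-- Recoverability: for every triple `t = (w, r, s)` and every query `q` which is sent with positive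
probability, `X_w` is determined by the answer, `X_r` and `X_s`. -/
def Recoverable : Prop :=
  ∀ (t : Trip K M₁ M₂) (q : P.Qry), P.query t q ≠ 0 → ∀ X X' : Fin K → Fin n → F,
    P.answer q X = P.answer q X' → (∀ k ∈ t.1.2.1 ∪ t.1.2.2, X k = X' k) → X t.1.1 = X' t.1.1

open Classical in
/-- `ℙ(A = a)`, where the messages are independent of the query and uniform. -/
noncomputable def probA [Fintype F] (a : P.Ans) : ℝ :=
  ∑ q, P.probQ q * ((univ.filter (fun X : Fin K → Fin n → F => P.answer q X = a)).card /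
    Fintype.card (Fin K → Fin n → F))

/-- The entropy `H(A)` of the answer, in bits. -/
noncomputable def entropyA [Fintype F] : ℝ := (∑ a, Real.negMulLog (P.probA a)) / Real.log 2

/-- The rate `B / H(A)`, where `B = n log₂ |F|` is the size of a message in bits. -/
noncomputable def rate [Fintype F] : ℝ := (n * Real.logb 2 (Fintype.card F)) / P.entropyA

end Protocol

/-- `K* = min (K - M₁ - M₂, ⌈K / (M₂ + 1)⌉)` -/
def Kstar (K M₁ M₂ : ℕ) : ℕ := min (K - M₁ - M₂) ⌈(K : ℚ) / (M₂ + 1)⌉₊

/-! ### The construction -/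

section

variable {K M₁ M₂ : ℕ} {F : Type} [Field F] [Fintype F]

/-- The combinatorial property of the labels `a`. -/
def Base (K M₁ M₂ : ℕ) {F : Type} (a : Fin K → F) : Prop :=
  ∀ (w : Fin K) (r : Finset (Fin K)), r.card = M₁ → w ∉ r → ∃ s : Finset (Fin K),
    (s.card = M₂ ∧ Disjoint r s ∧ w ∉ s) ∧ ∃ β : F, a w ≠ β ∧
      ∀ i, a i ≠ β → i = w ∨ i ∈ r ∨ i ∈ s

open Classical in
/-- the choice of `s` -/
noncomputable def s0 (K M₁ M₂ : ℕ) {F : Type} (a : Fin K → F) (w : Fin K) (r : Finset (Fin K)) :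
    Finset (Fin K) :=
  if h : ∃ s : Finset (Fin K), (s.card = M₂ ∧ Disjoint r s ∧ w ∉ s) ∧ ∃ β : F, a w ≠ β ∧
      ∀ i, a i ≠ β → i = w ∨ i ∈ r ∨ i ∈ s then h.choose else ∅

lemma s0_spec {a : Fin K → F} (h : Base K M₁ M₂ a) (w : Fin K) (r : Finset (Fin K))
    (hr : r.card = M₁) (hw : w ∉ r) :
    ((s0 K M₁ M₂ a w r).card = M₂ ∧ Disjoint r (s0 K M₁ M₂ a w r) ∧ w ∉ s0 K M₁ M₂ a w r) ∧
      ∃ β : F, a w ≠ β ∧ ∀ i, a i ≠ β → i = w ∨ i ∈ r ∨ i ∈ s0 K M₁ M₂ a w r := by
  unfold s0
  rw [dif_pos (h w r hr hw)]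
  exact (h w r hr hw).choose_spec

/-- image of a set under a permutation -/
def im (π : Equiv.Perm (Fin K)) (r : Finset (Fin K)) : Finset (Fin K) := r.map π.toEmbedding

lemma mem_im {π : Equiv.Perm (Fin K)} {r : Finset (Fin K)} {i : Fin K} :
    i ∈ im π r ↔ π.symm i ∈ r := by
  unfold im
  rw [Finset.mem_map_equiv]

lemma card_im (π : Equiv.Perm (Fin K)) (r : Finset (Fin K)) : (im π r).card = r.card :=
  Finset.card_map _

lemma im_mul (π σ : Equiv.Perm (Fin K)) (r : Finset (Fin K)) : im (π * σ) r = im π (im σ r) := by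
  ext i
  rw [mem_im, mem_im, mem_im]
  rfl

lemma im_inj {π : Equiv.Perm (Fin K)} {r r' : Finset (Fin K)} (h : im π r = im π r') : r = r' :=
  Finset.map_injective _ h

lemma disjoint_im {π : Equiv.Perm (Fin K)} {r r' : Finset (Fin K)} (h : Disjoint r r') :
    Disjoint (im π r) (im π r') := by
  unfold im
  exact (Finset.disjoint_map _).2 h

/-- the action of a permutation on the triples -/
def act (π : Equiv.Perm (Fin K)) (t : Trip K M₁ M₂) : Trip K M₁ M₂ :=
  ⟨(π t.1.1, im π t.1.2.1, im π t.1.2.2), by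
    obtain ⟨⟨w, r, s⟩, h1, h2, h3, h4, h5⟩ := t
    refine ⟨(card_im _ _).trans h1, (card_im _ _).trans h2, disjoint_im h3, ?_, ?_⟩
    · simp only [mem_im, Equiv.symm_apply_apply]
      exact h4
    · simp only [mem_im, Equiv.symm_apply_apply]
      exact h5⟩

lemma act_mul (π σ : Equiv.Perm (Fin K)) (t : Trip K M₁ M₂) : act (π * σ) t = act π (act σ t) := by
  apply Subtype.ext
  simp only [act, im_mul, Equiv.Perm.coe_mul, Function.comp]

lemma act_one (t : Trip K M₁ M₂) : act 1 t = t := by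
  apply Subtype.ext
  refine Prod.ext rfl (Prod.ext ?_ ?_)
  · ext i
    simp only [act, mem_im]
    rfl
  · ext i
    simp only [act, mem_im]
    rfl

/-- `t` and the standard position `π` fit together -/
def Good (a : Fin K → F) (t : Trip K M₁ M₂) (π : Equiv.Perm (Fin K)) : Prop :=
  s0 K M₁ M₂ a (act π⁻¹ t).1.1 (act π⁻¹ t).1.2.1 = (act π⁻¹ t).1.2.2

lemma good_act (a : Fin K → F) (t : Trip K M₁ M₂) (σ π : Equiv.Perm (Fin K)) :
    Good a (act σ t) (σ * π) ↔ Good a t π := by
  unfold Good
  have : act (σ * π)⁻¹ (act σ t) = act π⁻¹ t := by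
    rw [← act_mul]
    congr 1
    group
  rw [this]

/-- labels of the four blocks of a triple -/
def lab (t : Trip K M₁ M₂) (i : Fin K) : Fin 4 :=
  if i = t.1.1 then 0 else if i ∈ t.1.2.1 then 1 else if i ∈ t.1.2.2 then 2 else 3

lemma card_lab (t : Trip K M₁ M₂) (j : Fin 4) : Fintype.card {i // lab t i = j} =
    ![1, M₁, M₂, K - 1 - M₁ - M₂] j := by
  obtain ⟨⟨w, r, s⟩, h1, h2, h3, h4, h5⟩ := t
  simp only at h1 h2 h3 h4 h5
  rw [Fintype.card_subtype]
  have e0 : univ.filter (fun i => lab (⟨(w, r, s), h1, h2, h3, h4, h5⟩ : Trip K M₁ M₂) i = 0) =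
      {w} := by
    ext i
    simp only [lab, mem_filter, mem_univ, true_and, mem_singleton]
    split_ifs <;> simp_all
  have e1 : univ.filter (fun i => lab (⟨(w, r, s), h1, h2, h3, h4, h5⟩ : Trip K M₁ M₂) i = 1) =
      r := by
    ext i
    simp only [lab, mem_filter, mem_univ, true_and]
    split_ifs <;> simp_all
  have e2 : univ.filter (fun i => lab (⟨(w, r, s), h1, h2, h3, h4, h5⟩ : Trip K M₁ M₂) i = 2) =
      s := by
    ext i
    have hd : i ∈ r → i ∉ s := fun hi => Finset.disjoint_left.1 h3 hi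
    simp only [lab, mem_filter, mem_univ, true_and]
    split_ifs <;> simp_all
  have e3 : (univ.filter (fun i => lab (⟨(w, r, s), h1, h2, h3, h4, h5⟩ : Trip K M₁ M₂) i = 3)) =
      (insert w (r ∪ s))ᶜ := by
    ext i
    simp only [lab, mem_filter, mem_univ, true_and, mem_compl, mem_insert, mem_union]
    split_ifs <;> simp_all
  fin_cases j
  · exact (congrArg Finset.card e0).trans (by simp)
  · exact (congrArg Finset.card e1).trans (by simpa using h1)
  · exact (congrArg Finset.card e2).trans (by simpa using h2)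
  · refine (congrArg Finset.card e3).trans ?_
    rw [Finset.card_compl, Finset.card_insert_of_notMem (by
      rw [mem_union]
      rintro (h | h)
      · exact h4 h
      · exact h5 h), Finset.card_union_of_disjoint h3, h1, h2, Fintype.card_fin]
    show K - (M₁ + M₂ + 1) = K - 1 - M₁ - M₂
    omega

lemma exists_act (t t' : Trip K M₁ M₂) : ∃ σ : Equiv.Perm (Fin K), act σ t = t' := by
  have e : ∀ j : Fin 4, {i // lab t i = j} ≃ {i // lab t' i = j} := fun j =>
    Fintype.equivOfCardEq ((card_lab t j).trans (card_lab t' j).symm)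
  let σ : Equiv.Perm (Fin K) := (Equiv.sigmaFiberEquiv (lab t)).symm.trans
    ((Equiv.sigmaCongrRight e).trans (Equiv.sigmaFiberEquiv (lab t')))
  have hσ : ∀ i, lab t' (σ i) = lab t i := fun i => (e (lab t i) ⟨i, rfl⟩).2
  have hσ' : ∀ i, lab t (σ.symm i) = lab t' i := fun i => by
    rw [← hσ, Equiv.apply_symm_apply]
  have hw : ∀ (t : Trip K M₁ M₂) i, lab t i = 0 ↔ i = t.1.1 := by
    intro t i
    unfold lab
    split_ifs <;> simp_all
  have hr : ∀ (t : Trip K M₁ M₂) i, lab t i = 1 ↔ i ∈ t.1.2.1 := by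
    intro t i
    have := t.2.2.2.2.1
    unfold lab
    split_ifs <;> simp_all
  have hs : ∀ (t : Trip K M₁ M₂) i, lab t i = 2 ↔ i ∈ t.1.2.2 := by
    intro t i
    have h1 := t.2.2.2.2.2
    have h2 : i ∈ t.1.2.1 → i ∉ t.1.2.2 := fun hi => Finset.disjoint_left.1 t.2.2.2.1 hi
    unfold lab
    split_ifs <;> simp_all
  refine ⟨σ, Subtype.ext (Prod.ext ?_ (Prod.ext ?_ ?_))⟩
  · show σ t.1.1 = t'.1.1
    rw [← hw, hσ, hw]
  · ext i
    show i ∈ im σ t.1.2.1 ↔ _
    rw [mem_im, ← hr, ← hr, hσ']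
  · ext i
    show i ∈ im σ t.1.2.2 ↔ _
    rw [mem_im, ← hs, ← hs, hσ']

open Classical in
/-- the permutations which fit to `t` -/
noncomputable def G (a : Fin K → F) (t : Trip K M₁ M₂) : Finset (Equiv.Perm (Fin K)) :=
  univ.filter (Good a t)

lemma card_G (a : Fin K → F) (t t' : Trip K M₁ M₂) : (G a t).card = (G a t').card := by
  classical
  obtain ⟨σ, rfl⟩ := exists_act t t'
  apply Finset.card_bij (fun π _ => σ * π)
  · intro π hπ
    simp only [G, mem_filter, mem_univ, true_and] at hπ ⊢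
    exact (good_act a t σ π).2 hπ
  · intro π _ π' _ h
    exact mul_left_cancel h
  · intro π hπ
    simp only [G, mem_filter, mem_univ, true_and] at hπ ⊢
    refine ⟨σ⁻¹ * π, ?_, by group⟩
    rw [← good_act a t σ]
    have : σ * (σ⁻¹ * π) = π := by group
    rw [this]
    exact hπ

lemma G_pos {a : Fin K → F} (h : Base K M₁ M₂ a) (t : Trip K M₁ M₂) : 0 < (G a t).card := by
  classical
  obtain ⟨⟨w, r, s⟩, h1, h2, h3, h4, h5⟩ := t
  have hs := s0_spec h w r h1 h4
  let t' : Trip K M₁ M₂ := ⟨(w, r, s0 K M₁ M₂ a w r), h1, hs.1.1, hs.1.2.1, h4, hs.1.2.2⟩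
  rw [card_G a _ t', Finset.card_pos]
  refine ⟨1, ?_⟩
  simp only [G, mem_filter, mem_univ, true_and, Good]
  have : act (1 : Equiv.Perm (Fin K))⁻¹ t' = t' := by
    rw [inv_one, act_one]
  rw [this]

/-- the answer: `∑ X_{π i}` and `∑ a_i X_{π i}` -/
def ans (a : Fin K → F) (π : Equiv.Perm (Fin K)) (X : Fin K → Fin 1 → F) : F × F :=
  (∑ i, X (π i) 0, ∑ i, a i * X (π i) 0)

open Classical in
/-- The protocol. -/
noncomputable def prot (a : Fin K → F) (h : Base K M₁ M₂ a) : Protocol K M₁ M₂ F 1 where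
  Qry := Equiv.Perm (Fin K)
  Ans := F × F
  finQ := inferInstance
  finA := inferInstance
  query := fun t π => if Good a t π then 1 / ((G a t).card : ℝ) else 0
  query_nonneg := by
    intro t π
    split_ifs
    · positivity
    · exact le_rfl
  query_sum := by
    intro t
    rw [← Finset.sum_filter, Finset.sum_const, nsmul_eq_mul]
    have : ((univ.filter (Good a t)).card : ℝ) = ((G a t).card : ℝ) := rfl
    rw [this]
    have hp : ((G a t).card : ℝ) ≠ 0 := by
      have := G_pos h t
      positivity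
    field_simp
  answer := ans a

lemma recover_aux (a : Fin K → F) (h : Base K M₁ M₂ a) (t : Trip K M₁ M₂)
    (π : Equiv.Perm (Fin K)) (hg : Good a t π) (X X' : Fin K → Fin 1 → F)
    (hans' : ans a π X = ans a π X') (hX : ∀ k ∈ t.1.2.1 ∪ t.1.2.2, X k = X' k) :
    X t.1.1 = X' t.1.1 := by
  classical
  unfold Good at hg
  obtain ⟨t', ht'⟩ : ∃ t', t' = act π⁻¹ t := ⟨_, rfl⟩
  rw [← ht'] at hg
  have htt : t = act π t' := by
    rw [ht', ← act_mul, mul_inv_cancel, act_one]
  obtain ⟨-, β, hβ1, hβ2⟩ := s0_spec h t'.1.1 t'.1.2.1 t'.2.1 t'.2.2.2.2.1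
  rw [hg] at hβ2
  have h1 : ∑ i, X (π i) 0 = ∑ i, X' (π i) 0 := congrArg Prod.fst hans'
  have h2 : ∑ i, a i * X (π i) 0 = ∑ i, a i * X' (π i) 0 := congrArg Prod.snd hans'
  have h3 : ∑ i, (a i - β) * (X (π i) 0 - X' (π i) 0) = 0 := by
    have : ∀ i, (a i - β) * (X (π i) 0 - X' (π i) 0) =
        (a i * X (π i) 0 - a i * X' (π i) 0) - (β * X (π i) 0 - β * X' (π i) 0) := by
      intro i
      ring
    simp_rw [this]
    rw [Finset.sum_sub_distrib, Finset.sum_sub_distrib, Finset.sum_sub_distrib,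
      ← Finset.mul_sum, ← Finset.mul_sum, h1, h2]
    ring
  have hmem : ∀ i, i ∈ t'.1.2.1 ∨ i ∈ t'.1.2.2 → X (π i) = X' (π i) := by
    intro i hi
    apply hX
    rw [htt, mem_union]
    rcases hi with hi | hi
    · left
      show π i ∈ im π t'.1.2.1
      rw [mem_im, Equiv.symm_apply_apply]
      exact hi
    · right
      show π i ∈ im π t'.1.2.2
      rw [mem_im, Equiv.symm_apply_apply]
      exact hi
  rw [Finset.sum_eq_single t'.1.1] at h3
  · have h4 : a t'.1.1 - β ≠ 0 := sub_ne_zero.2 hβ1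
    have h5 := (mul_eq_zero.1 h3).resolve_left h4
    have h6 : t.1.1 = π t'.1.1 := by
      conv_lhs => rw [htt]
      rfl
    rw [h6]
    funext k
    have hk : k = 0 := Subsingleton.elim _ _
    rw [hk]
    exact sub_eq_zero.1 h5
  · intro i _ hi
    by_cases hai : a i = β
    · rw [hai, sub_self, zero_mul]
    · rw [hmem i ((hβ2 i hai).resolve_left hi), sub_self, mul_zero]
  · intro h
    exact absurd (Finset.mem_univ _) h

lemma recoverable (a : Fin K → F) (h : Base K M₁ M₂ a) : (prot a h).Recoverable := by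
  classical
  intro t π hq X X' hans hX
  have hg : Good a t π := by
    by_contra hcon
    exact hq (if_neg hcon)
  exact recover_aux a h t π hg X X' hans hX

/-- the triples over a pair `(w, r)` -/
lemma card_fiber (w : Fin K) (r : Finset (Fin K)) (hr : r.card = M₁) (hw : w ∉ r) :
    (univ.filter (fun t : Trip K M₁ M₂ => t.1.1 = w ∧ t.1.2.1 = r)).card =
      (K - 1 - M₁).choose M₂ := by
  have h1 : ((insert w r)ᶜ : Finset (Fin K)).card = K - 1 - M₁ := by
    rw [Finset.card_compl, Finset.card_insert_of_notMem hw, hr, Fintype.card_fin]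
    omega
  rw [← h1, ← Finset.card_powersetCard]
  apply Finset.card_bij (fun t _ => t.1.2.2)
  · rintro ⟨⟨w', r', s⟩, h1, h2, h3, h4, h5⟩ ht
    simp only [mem_filter, mem_univ, true_and] at ht
    obtain ⟨rfl, rfl⟩ := ht
    rw [mem_powersetCard]
    refine ⟨fun i hi => ?_, h2⟩
    rw [mem_compl, mem_insert]
    rintro (rfl | h)
    · exact h5 hi
    · exact Finset.disjoint_left.1 h3 h hi
  · rintro ⟨⟨w', r', s⟩, h1, h2, h3, h4, h5⟩ ht ⟨⟨w'', r'', s'⟩, h1', h2', h3', h4', h5'⟩ ht' h
    simp only [mem_filter, mem_univ, true_and] at ht ht' h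
    obtain ⟨rfl, rfl⟩ := ht
    obtain ⟨rfl, rfl⟩ := ht'
    subst h
    rfl
  · intro s hs
    rw [mem_powersetCard] at hs
    have h5 : w ∉ s := fun h => by
      have := hs.1 h
      rw [mem_compl, mem_insert] at this
      exact this (Or.inl rfl)
    have h3 : Disjoint r s := by
      rw [Finset.disjoint_left]
      intro i hi hi'
      have := hs.1 hi'
      rw [mem_compl, mem_insert] at this
      exact this (Or.inr hi)
    exact ⟨⟨(w, r, s), hr, hs.2, h3, hw, h5⟩, by simp, rfl⟩

/-- the possible values of `(W, R)` -/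
abbrev Pairs (K M₁ : ℕ) : Type := {p : Fin K × Finset (Fin K) // p.2.card = M₁ ∧ p.1 ∉ p.2}

/-- the pair of a triple -/
def toPair (t : Trip K M₁ M₂) : Pairs K M₁ := ⟨(t.1.1, t.1.2.1), t.2.1, t.2.2.2.2.1⟩

lemma toPair_eq (t : Trip K M₁ M₂) (p : Pairs K M₁) :
    toPair t = p ↔ t.1.1 = p.1.1 ∧ t.1.2.1 = p.1.2 := by
  rw [Subtype.ext_iff, Prod.ext_iff]
  rfl

lemma sum_pairs (f : Trip K M₁ M₂ → ℝ) : ∑ t, f t = ∑ p : Pairs K M₁,
    ∑ t ∈ univ.filter (fun t : Trip K M₁ M₂ => t.1.1 = p.1.1 ∧ t.1.2.1 = p.1.2), f t := by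
  rw [← Finset.sum_fiberwise (s := univ) (g := toPair)]
  apply Finset.sum_congr rfl
  intro p _
  apply Finset.sum_congr _ (fun _ _ => rfl)
  ext t
  simp only [mem_filter, mem_univ, true_and, toPair_eq]

lemma fiber_sum (a : Fin K → F) (h : Base K M₁ M₂ a) (t₁ : Trip K M₁ M₂) (π : Equiv.Perm (Fin K))
    (w : Fin K) (r : Finset (Fin K)) (hr : r.card = M₁) (hw : w ∉ r) :
    ∑ t ∈ univ.filter (fun t : Trip K M₁ M₂ => t.1.1 = w ∧ t.1.2.1 = r), (prot a h).query t π =
      1 / ((G a t₁).card : ℝ) := by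
  classical
  have hr' : (im π⁻¹ r).card = M₁ := (card_im _ _).trans hr
  have hw' : π⁻¹ w ∉ im π⁻¹ r := by
    rw [mem_im, Equiv.symm_apply_apply]
    exact hw
  have hs := s0_spec h (π⁻¹ w) (im π⁻¹ r) hr' hw'
  let u : Trip K M₁ M₂ := ⟨(π⁻¹ w, im π⁻¹ r, s0 K M₁ M₂ a (π⁻¹ w) (im π⁻¹ r)), hr', hs.1.1, hs.1.2.1,
    hw', hs.1.2.2⟩
  have hu1 : (act π u).1.1 = w := by
    show π (π⁻¹ w) = w
    simp
  have hu2 : (act π u).1.2.1 = r := by
    show im π (im π⁻¹ r) = r
    rw [← im_mul, mul_inv_cancel]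
    ext i
    rw [mem_im]
    rfl
  have hgu : Good a (act π u) π := by
    have := (good_act a u π 1).2
    rw [mul_one] at this
    apply this
    unfold Good
    rw [inv_one, act_one]
  rw [Finset.sum_eq_single (act π u)]
  · show (if Good a (act π u) π then 1 / ((G a (act π u)).card : ℝ) else 0) = _
    rw [if_pos hgu, card_G a _ t₁]
  · intro t ht hne
    simp only [mem_filter, mem_univ, true_and] at ht
    show (if Good a t π then 1 / ((G a t).card : ℝ) else 0) = 0
    apply if_neg
    intro hg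
    apply hne
    unfold Good at hg
    have h1 : act π⁻¹ t = u := by
      apply Subtype.ext
      refine Prod.ext ?_ (Prod.ext ?_ ?_)
      · show π⁻¹ t.1.1 = π⁻¹ w
        rw [ht.1]
      · show im π⁻¹ t.1.2.1 = im π⁻¹ r
        rw [ht.2]
      · rw [← hg]
        show s0 K M₁ M₂ a (π⁻¹ t.1.1) (im π⁻¹ t.1.2.1) = s0 K M₁ M₂ a (π⁻¹ w) (im π⁻¹ r)
        rw [ht.1, ht.2]
    rw [← h1, ← act_mul, mul_inv_cancel, act_one]
  · intro hn
    exact absurd (by simp only [mem_filter, mem_univ, true_and]; exact ⟨hu1, hu2⟩) hn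

lemma isPrivate (a : Fin K → F) (h : Base K M₁ M₂ a) (hne : Nonempty (Trip K M₁ M₂)) :
    (prot a h).Private := by
  classical
  obtain ⟨t₁⟩ := hne
  intro π w r hr hw
  obtain ⟨g, hg⟩ : ∃ g : ℝ, g = 1 / ((G a t₁).card : ℝ) := ⟨_, rfl⟩
  obtain ⟨T, hT⟩ : ∃ T : ℝ, T = (Fintype.card (Trip K M₁ M₂) : ℝ) := ⟨_, rfl⟩
  obtain ⟨k, hk⟩ : ∃ k : ℝ, k = ((K - 1 - M₁).choose M₂ : ℝ) := ⟨_, rfl⟩
  have hTpos : 0 < T := by
    rw [hT]
    have : 0 < Fintype.card (Trip K M₁ M₂) := Fintype.card_pos_iff.2 ⟨t₁⟩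
    exact_mod_cast this
  have h1 : ∀ (π : Equiv.Perm (Fin K)) (w : Fin K) (r : Finset (Fin K)), r.card = M₁ → w ∉ r →
      (prot a h).probWRQ w r π = g / T := by
    intro π w r hr hw
    unfold Protocol.probWRQ Protocol.prob
    rw [← Finset.sum_div, fiber_sum a h t₁ π w r hr hw, ← hg, ← hT]
  have h2 : ∀ (w : Fin K) (r : Finset (Fin K)), r.card = M₁ → w ∉ r →
      (prot a h).probWR w r = k / T := by
    intro w r hr hw
    unfold Protocol.probWR Protocol.probWRQ Protocol.prob
    rw [Finset.sum_comm]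
    have : ∀ t : Trip K M₁ M₂, ∑ q, (prot a h).query t q / (Fintype.card (Trip K M₁ M₂) : ℝ) =
        1 / T := by
      intro t
      rw [← Finset.sum_div, (prot a h).query_sum t, hT]
    rw [Finset.sum_congr rfl (fun t _ => this t), Finset.sum_const, card_fiber w r hr hw,
      nsmul_eq_mul, ← hk]
    ring
  have h3 : (prot a h).probQ π = (Fintype.card (Pairs K M₁) : ℝ) * (g / T) := by
    unfold Protocol.probQ
    rw [sum_pairs]
    have : ∀ p : Pairs K M₁, ∑ t ∈ univ.filter (fun t : Trip K M₁ M₂ => t.1.1 = p.1.1 ∧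
        t.1.2.1 = p.1.2), (prot a h).prob t π = g / T := fun p => h1 π p.1.1 p.1.2 p.2.1 p.2.2
    rw [Finset.sum_congr rfl (fun p _ => this p), Finset.sum_const, nsmul_eq_mul]
    rfl
  have h4 : T = (Fintype.card (Pairs K M₁) : ℝ) * k := by
    have h5 := sum_pairs (fun _ : Trip K M₁ M₂ => (1 : ℝ))
    simp only [Finset.sum_const, nsmul_eq_mul, mul_one, Finset.card_univ] at h5
    rw [hT, h5]
    have : ∀ p : Pairs K M₁, ((univ.filter (fun t : Trip K M₁ M₂ => t.1.1 = p.1.1 ∧
        t.1.2.1 = p.1.2)).card : ℝ) = k := fun p => by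
      rw [card_fiber p.1.1 p.1.2 p.2.1 p.2.2, hk]
    rw [Finset.sum_congr rfl (fun p _ => this p), Finset.sum_const, nsmul_eq_mul]
    rfl
  rw [h1 π w r hr hw, h2 w r hr hw, h3]
  have h6 : k / T * ((Fintype.card (Pairs K M₁) : ℝ) * (g / T)) =
      ((Fintype.card (Pairs K M₁) : ℝ) * k) / T * (g / T) := by ring
  rw [h6, ← h4, div_self hTpos.ne', one_mul]

/-! ### The rate -/

lemma ans_fiber (a : Fin K → F) (π : Equiv.Perm (Fin K)) (hcc : ∃ i i', a i ≠ a i') (b : F × F)
    [DecidableEq F] :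
    ((univ.filter (fun X : Fin K → Fin 1 → F => ans a π X = b)).card : ℝ) /
      Fintype.card (Fin K → Fin 1 → F) = 1 / (Fintype.card F : ℝ) ^ 2 := by
  classical
  have hadd : ∀ X Y, ans a π (X + Y) = ans a π X + ans a π Y := by
    intro X Y
    simp only [ans, Pi.add_apply, mul_add, Finset.sum_add_distrib, Prod.mk_add_mk]
  have hsurj : ∀ b : F × F, ∃ X, ans a π X = b := by
    rintro ⟨x, y⟩
    obtain ⟨i, i', hi⟩ := hcc
    have hd : a i - a i' ≠ 0 := sub_ne_zero.2 hi
    have hne : i ≠ i' := fun h => hi (by rw [h])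
    let u : F := (y - a i' * x) / (a i - a i')
    refine ⟨fun k _ => (if k = π i then u else 0) + (if k = π i' then x - u else 0), ?_⟩
    have e1 : ∀ (c : Fin K → F) (j : Fin K) (v : F),
        ∑ l, c l * (if π l = π j then v else 0) = c j * v := by
      intro c j v
      rw [Finset.sum_eq_single j]
      · simp
      · intro l _ hl
        have : π l ≠ π j := fun h => hl (π.injective h)
        simp [this]
      · intro h
        exact absurd (Finset.mem_univ _) h
    have e2 := e1 (fun _ => 1)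
    simp only [one_mul] at e2
    unfold ans
    simp only [Finset.sum_add_distrib, mul_add]
    rw [e2, e2, e1, e1]
    refine Prod.ext ?_ ?_
    · simp
    · show a i * u + a i' * (x - u) = y
      have : u * (a i - a i') = y - a i' * x := div_mul_cancel₀ _ hd
      linear_combination this
  have hconst : ∀ b b' : F × F, (univ.filter (fun X : Fin K → Fin 1 → F => ans a π X = b)).card ≤
      (univ.filter (fun X : Fin K → Fin 1 → F => ans a π X = b')).card := by
    intro b b'
    obtain ⟨Z, hZ⟩ := hsurj (b' - b)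
    apply Finset.card_le_card_of_injOn (fun X => X + Z)
    · intro X hX
      simp only [coe_filter, mem_univ, true_and, Set.mem_ofPred_eq] at hX ⊢
      rw [hadd, hX, hZ]
      abel
    · intro X _ Y _ hXY
      exact add_right_cancel hXY
  have htot : Fintype.card (Fin K → Fin 1 → F) =
      Fintype.card (F × F) * (univ.filter (fun X : Fin K → Fin 1 → F => ans a π X = b)).card := by
    have h1 := Finset.card_eq_sum_card_fiberwise (f := ans a π)
      (s := (univ : Finset (Fin K → Fin 1 → F))) (t := univ) (fun _ _ => by simp)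
    rw [← Finset.card_univ, h1]
    have h2 : ∀ b' ∈ (univ : Finset (F × F)),
        (univ.filter (fun X : Fin K → Fin 1 → F => ans a π X = b')).card =
        (univ.filter (fun X : Fin K → Fin 1 → F => ans a π X = b)).card :=
      fun b' _ => le_antisymm (hconst _ _) (hconst _ _)
    rw [Finset.sum_congr rfl h2, Finset.sum_const, smul_eq_mul, Finset.card_univ]
  have hpos : 0 < Fintype.card (Fin K → Fin 1 → F) := Fintype.card_pos
  have hpos2 : 0 < (univ.filter (fun X : Fin K → Fin 1 → F => ans a π X = b)).card := by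
    rcases Nat.eq_zero_or_pos (univ.filter (fun X : Fin K → Fin 1 → F => ans a π X = b)).card
      with h | h
    · rw [h, mul_zero] at htot
      omega
    · exact h
  have hF : (0 : ℝ) < Fintype.card F := by
    have : 0 < Fintype.card F := Fintype.card_pos
    exact_mod_cast this
  rw [htot, Fintype.card_prod]
  push_cast
  have h7 : ((univ.filter (fun X : Fin K → Fin 1 → F => ans a π X = b)).card : ℝ) ≠ 0 := by
    positivity
  field_simp

lemma ans_fiber' (a : Fin K → F) (π : Equiv.Perm (Fin K)) (hcc : ∃ i i', a i ≠ a i') (b : F × F)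
    (hd : DecidablePred (fun X : Fin K → Fin 1 → F => ans a π X = b)) :
    ((@Finset.filter _ (fun X : Fin K → Fin 1 → F => ans a π X = b) hd univ).card : ℝ) /
      Fintype.card (Fin K → Fin 1 → F) = 1 / (Fintype.card F : ℝ) ^ 2 := by
  classical
  rw [← ans_fiber a π hcc b]
  congr!

lemma rate_eq (a : Fin K → F) (h : Base K M₁ M₂ a) (hne : Nonempty (Trip K M₁ M₂))
    (hcc : ∃ i i', a i ≠ a i') : (prot a h).rate = 1 / 2 := by
  classical
  have hq : (1 : ℝ) < Fintype.card F := by
    have : 1 < Fintype.card F := Fintype.one_lt_card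
    exact_mod_cast this
  have hTpos : (0 : ℝ) < (Fintype.card (Trip K M₁ M₂) : ℝ) := by
    have : 0 < Fintype.card (Trip K M₁ M₂) := Fintype.card_pos_iff.2 hne
    exact_mod_cast this
  have h1 : ∑ q, (prot a h).probQ q = 1 := by
    unfold Protocol.probQ Protocol.prob
    rw [Finset.sum_comm]
    have : ∀ t : Trip K M₁ M₂, ∑ q, (prot a h).query t q / (Fintype.card (Trip K M₁ M₂) : ℝ) =
        1 / (Fintype.card (Trip K M₁ M₂) : ℝ) := by
      intro t
      rw [← Finset.sum_div, (prot a h).query_sum t]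
    rw [Finset.sum_congr rfl (fun t _ => this t), Finset.sum_const, nsmul_eq_mul,
      Finset.card_univ]
    field_simp
  have h2 : ∀ b : (prot a h).Ans, (prot a h).probA b = 1 / (Fintype.card F : ℝ) ^ 2 := by
    intro b
    unfold Protocol.probA
    have : ∀ q : (prot a h).Qry, (prot a h).probQ q *
        (((univ.filter (fun X : Fin K → Fin 1 → F => (prot a h).answer q X = b)).card : ℝ) /
          Fintype.card (Fin K → Fin 1 → F)) =
        (prot a h).probQ q * (1 / (Fintype.card F : ℝ) ^ 2) := by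
      intro q
      congr 1
      exact ans_fiber' a q hcc b _
    rw [Finset.sum_congr rfl (fun q _ => this q), ← Finset.sum_mul, h1, one_mul]
  have h3 : (prot a h).entropyA = 2 * Real.logb 2 (Fintype.card F) := by
    unfold Protocol.entropyA
    rw [Finset.sum_congr rfl (fun b _ => by rw [h2 b]), Finset.sum_const, nsmul_eq_mul,
      Finset.card_univ]
    have h4 : (Fintype.card (prot a h).Ans : ℝ) = (Fintype.card F : ℝ) ^ 2 := by
      have : Fintype.card (prot a h).Ans = Fintype.card (F × F) := rfl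
      rw [this, Fintype.card_prod]
      push_cast
      ring
    rw [h4, Real.negMulLog, one_div, Real.log_inv, Real.log_pow, Real.logb]
    have : (Fintype.card F : ℝ) ^ 2 ≠ 0 := by positivity
    field_simp
    push_cast
    ring
  have h5 : 0 < Real.logb 2 (Fintype.card F) := Real.logb_pos (by norm_num) hq
  unfold Protocol.rate
  rw [h3]
  push_cast
  field_simp

end

/-! ### The labels -/

/-- the class of a message -/
def cls (m n : ℕ) (i : Fin ((m + 1) * n)) : Fin (m + 1) := (finProdFinEquiv.symm i).1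

lemma card_cls (m n : ℕ) (j : Fin (m + 1)) : (univ.filter (fun i => cls m n i = j)).card = n := by
  have hinj : Function.Injective (fun x : Fin n => (finProdFinEquiv (j, x) : Fin ((m + 1) * n))) := by
    intro x y h
    exact (Prod.ext_iff.1 (finProdFinEquiv.injective h)).2
  have h1 : (univ.filter (fun i => cls m n i = j)) =
      (univ : Finset (Fin n)).image (fun x : Fin n => finProdFinEquiv (j, x)) := by
    ext i
    simp only [mem_filter, mem_univ, true_and, mem_image]
    constructor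
    · intro h
      refine ⟨(finProdFinEquiv.symm i).2, ?_⟩
      rw [← h]
      show finProdFinEquiv (finProdFinEquiv.symm i) = i
      exact Equiv.apply_symm_apply _ _
    · rintro ⟨x, rfl⟩
      unfold cls
      rw [Equiv.symm_apply_apply]
  rw [h1, Finset.card_image_of_injective _ hinj]
  simp

lemma pigeon (m n s : ℕ) (hn : s < n) (hm : 1 ≤ m) (w : Fin ((m + 1) * n))
    (r : Finset (Fin ((m + 1) * n))) (hr : r.card = m * (n - s) - 1) :
    ∃ j, cls m n w ≠ j ∧ (r.filter (fun i => cls m n i = j)).card < n - s := by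
  by_contra hcon
  push Not at hcon
  have h1 := Finset.card_eq_sum_card_fiberwise (f := cls m n) (s := r) (t := univ)
    (fun _ _ => by simp)
  have h2 : ∑ j ∈ univ.erase (cls m n w), (n - s) ≤
      ∑ j ∈ univ.erase (cls m n w), (r.filter (fun i => cls m n i = j)).card := by
    apply Finset.sum_le_sum
    intro j hj
    exact hcon j (Finset.ne_of_mem_erase hj).symm
  have h3 : ∑ j ∈ univ.erase (cls m n w), (r.filter (fun i => cls m n i = j)).card ≤
      ∑ j, (r.filter (fun i => cls m n i = j)).card :=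
    Finset.sum_le_sum_of_subset (Finset.erase_subset _ _)
  rw [← h1, hr] at h3
  rw [Finset.sum_const, Finset.card_erase_of_mem (Finset.mem_univ _), Finset.card_univ,
    Fintype.card_fin, smul_eq_mul, Nat.add_sub_cancel] at h2
  have h4 : 1 ≤ m * (n - s) := Nat.one_le_iff_ne_zero.2 (by
    have : 0 < n - s := by omega
    positivity)
  omega

lemma base_cls (m n s : ℕ) (hs : s < n) (hm : 1 ≤ m) {F : Type} (α : Fin (m + 1) → F)
    (hα : Function.Injective α) :
    Base ((m + 1) * n) (m * (n - s) - 1) (n + (m - 1) * s - 1) (fun i => α (cls m n i)) := by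
  intro w r hr hw
  obtain ⟨j, hj1, hj2⟩ := pigeon m n s hs hm w r hr
  obtain ⟨d, rfl⟩ : ∃ d, n = s + d := ⟨n - s, by omega⟩
  obtain ⟨m', rfl⟩ : ∃ m', m = m' + 1 := ⟨m - 1, by omega⟩
  simp only [Nat.add_sub_cancel_left, Nat.add_sub_cancel] at *
  have hd : 0 < d := by omega
  have hmd : 1 ≤ (m' + 1) * d := Nat.one_le_iff_ne_zero.2 (by positivity)
  let U : Finset (Fin ((m' + 1 + 1) * (s + d))) :=
    (univ.filter (fun i => cls (m' + 1) (s + d) i ≠ j)) \ insert w r
  have hU1 : U.card + 1 + (r.filter (fun i => ¬ cls (m' + 1) (s + d) i = j)).card =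
      (m' + 1) * (s + d) := by
    have h1 : (univ.filter (fun i => cls (m' + 1) (s + d) i ≠ j)).card = (m' + 1) * (s + d) := by
      have h2 := Finset.card_filter_add_card_filter_not (s := univ)
        (fun i => cls (m' + 1) (s + d) i = j)
      rw [card_cls, Finset.card_univ, Fintype.card_fin] at h2
      have h3 : (m' + 1 + 1) * (s + d) = (m' + 1) * (s + d) + (s + d) := by ring
      have h4 : (univ.filter (fun i => cls (m' + 1) (s + d) i ≠ j)).card =
        (univ.filter (fun i => ¬ cls (m' + 1) (s + d) i = j)).card := rfl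
      omega
    have h2 : (insert w r ∩ univ.filter (fun i => cls (m' + 1) (s + d) i ≠ j)).card =
        1 + (r.filter (fun i => ¬ cls (m' + 1) (s + d) i = j)).card := by
      have : insert w r ∩ univ.filter (fun i => cls (m' + 1) (s + d) i ≠ j) =
          insert w (r.filter (fun i => ¬ cls (m' + 1) (s + d) i = j)) := by
        ext i
        simp only [mem_inter, mem_insert, mem_filter, mem_univ, true_and, ne_eq]
        constructor
        · rintro ⟨h | h, h'⟩
          · exact Or.inl h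
          · exact Or.inr ⟨h, h'⟩
        · rintro (rfl | h)
          · exact ⟨Or.inl rfl, hj1⟩
          · exact ⟨Or.inr h.1, h.2⟩
      rw [this, Finset.card_insert_of_notMem (by simp [hw])]
      omega
    have h3 : U.card = (univ.filter (fun i => cls (m' + 1) (s + d) i ≠ j)).card -
        (insert w r ∩ univ.filter (fun i => cls (m' + 1) (s + d) i ≠ j)).card :=
      Finset.card_sdiff
    have h4 : (insert w r ∩ univ.filter (fun i => cls (m' + 1) (s + d) i ≠ j)).card ≤
        (univ.filter (fun i => cls (m' + 1) (s + d) i ≠ j)).card :=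
      Finset.card_le_card Finset.inter_subset_right
    omega
  have hU2 : (r.filter (fun i => cls (m' + 1) (s + d) i = j)).card +
      (r.filter (fun i => ¬ cls (m' + 1) (s + d) i = j)).card = (m' + 1) * d - 1 := by
    rw [Finset.card_filter_add_card_filter_not, hr]
  have e1 : (m' + 1) * (s + d) = (m' + 1) * d + m' * s + s := by ring
  have hU3 : U.card ≤ s + d + m' * s - 1 := by omega
  have hW : s + d + m' * s - 1 ≤ ((insert w r)ᶜ : Finset (Fin ((m' + 1 + 1) * (s + d)))).card := by
    rw [Finset.card_compl, Finset.card_insert_of_notMem hw, hr, Fintype.card_fin]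
    have e2 : (m' + 1 + 1) * (s + d) = (m' + 1) * d + m' * s + s + s + d := by ring
    omega
  have hUW : U ⊆ (insert w r)ᶜ := by
    intro i hi
    rw [mem_compl]
    exact (Finset.mem_sdiff.1 hi).2
  obtain ⟨S, hS1, hS2, hS3⟩ := Finset.exists_subsuperset_card_eq hUW hU3 hW
  refine ⟨S, ⟨hS3, ?_, ?_⟩, α j, fun h => hj1 (hα h), ?_⟩
  · rw [Finset.disjoint_left]
    intro i hi hi'
    have := hS2 hi'
    rw [mem_compl, mem_insert] at this
    exact this (Or.inr hi)
  · intro h
    have := hS2 h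
    rw [mem_compl, mem_insert] at this
    exact this (Or.inl rfl)
  · intro i hi
    by_cases h : i ∈ insert w r
    · rw [mem_insert] at h
      rcases h with h | h
      · exact Or.inl h
      · exact Or.inr (Or.inl h)
    · refine Or.inr (Or.inr (hS1 ?_))
      rw [Finset.mem_sdiff]
      refine ⟨?_, h⟩
      simp only [mem_filter, mem_univ, true_and]
      intro hc
      exact hi (by rw [hc])

/-- The family of protocols. -/
theorem family (m n s : ℕ) (hs : s < n) (hm : 1 ≤ m) (F : Type) [Field F] [Fintype F]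
    (hF : m + 1 ≤ Fintype.card F) :
    ∃ P : Protocol ((m + 1) * n) (m * (n - s) - 1) (n + (m - 1) * s - 1) F 1,
      P.Private ∧ P.Recoverable ∧ P.rate = 1 / 2 := by
  classical
  obtain ⟨α⟩ : Nonempty (Fin (m + 1) ↪ F) :=
    Function.Embedding.nonempty_of_card_le (by simpa using hF)
  have hb := base_cls m n s hs hm α α.injective
  have hn : 0 < n := by omega
  have hcc : ∃ i i', (fun i => α (cls m n i)) i ≠ (fun i => α (cls m n i)) i' := by
    refine ⟨finProdFinEquiv (⟨0, by omega⟩, ⟨0, hn⟩), finProdFinEquiv (⟨1, by omega⟩, ⟨0, hn⟩), ?_⟩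
    simp only [cls, Equiv.symm_apply_apply]
    intro h
    have := congrArg Fin.val (α.injective h)
    simp at this
  have hne : Nonempty (Trip ((m + 1) * n) (m * (n - s) - 1) (n + (m - 1) * s - 1)) := by
    have hK : m * (n - s) - 1 < (m + 1) * n := by
      have : m * (n - s) ≤ (m + 1) * n := Nat.mul_le_mul (by omega) (by omega)
      have h2 : 0 < (m + 1) * n := by positivity
      omega
    let w : Fin ((m + 1) * n) := ⟨0, by positivity⟩
    have hc : m * (n - s) - 1 ≤ (univ.erase w).card := by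
      rw [Finset.card_erase_of_mem (Finset.mem_univ _), Finset.card_univ, Fintype.card_fin]
      omega
    obtain ⟨r, hr1, hr2⟩ := Finset.exists_subset_card_eq hc
    have hw : w ∉ r := fun h => Finset.notMem_erase w _ (hr1 h)
    obtain ⟨S, ⟨h1, h2, h3⟩, -⟩ := hb w r hr2 hw
    exact ⟨⟨(w, r, S), hr2, h1, h2, hw, h3⟩⟩
  exact ⟨prot _ hb, isPrivate _ hb hne, recoverable _ hb, rate_eq _ hb hne hcc⟩

/-- **Protocols better than the conjectured capacity.**
(1) For `K = 9`, `M₁ = M₂ = 3` there is a protocol of rate `1/2`, while `1 / K* = 1/3`.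
(2) For every `N` there are `M₁, M₂ ≥ 2` and `K > M₁ + M₂` with `K* ≥ N` for which there is a protocol
of rate `1/2`.
(3) The assertion of the question (all protocols have rate at most `1 / K*`) is false. -/
theorem result :
    (Kstar 9 3 3 = 3 ∧ ∃ P : Protocol 9 3 3 (ZMod 3) 1,
      P.Private ∧ P.Recoverable ∧ P.rate = 1 / 2) ∧
    (∀ N : ℕ, ∃ K M₁ M₂ : ℕ, 2 ≤ M₁ ∧ 2 ≤ M₂ ∧ M₁ + M₂ < K ∧ N ≤ Kstar K M₁ M₂ ∧
      ∃ p : ℕ, p.Prime ∧ ∃ _ : Fact p.Prime, ∃ P : Protocol K M₁ M₂ (ZMod p) 1,
        P.Private ∧ P.Recoverable ∧ P.rate = 1 / 2) ∧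
    ¬ (∀ K M₁ M₂ : ℕ, 2 ≤ M₁ → 2 ≤ M₂ → M₁ + M₂ < K →
      ∀ (F : Type) [Field F] [Fintype F] (n : ℕ), 1 ≤ n → ∀ P : Protocol K M₁ M₂ F n,
        P.Private → P.Recoverable → P.rate ≤ 1 / (Kstar K M₁ M₂ : ℝ)) := by
  have h3 : Fact (Nat.Prime 3) := ⟨by norm_num⟩
  have hk : Kstar 9 3 3 = 3 := by
    unfold Kstar
    have : ⌈((9 : ℕ) : ℚ) / ((3 : ℕ) + 1)⌉₊ = 3 := by
      rw [Nat.ceil_eq_iff (by norm_num)]
      norm_num
    rw [this]
    rfl
  have h9 : ∃ P : Protocol 9 3 3 (ZMod 3) 1, P.Private ∧ P.Recoverable ∧ P.rate = 1 / 2 :=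
    family 2 3 1 (by norm_num) (by norm_num) (ZMod 3) (by rw [ZMod.card])
  refine ⟨⟨hk, h9⟩, ?_, ?_⟩
  · intro N
    obtain ⟨s, hs⟩ : ∃ s, s = N + 1 := ⟨_, rfl⟩
    obtain ⟨m, hm⟩ : ∃ m, m = 2 * N + 3 := ⟨_, rfl⟩
    obtain ⟨p, hp1, hp2⟩ := Nat.exists_infinite_primes (m + 1)
    have hfp : Fact p.Prime := ⟨hp2⟩
    have hsn : s < m * s := by rw [hm, hs]; nlinarith
    have hms : m * s - s = (m - 1) * s := (Nat.sub_one_mul m s).symm
    have e1 : (m - 1) * s + s = m * s := by rw [← hms]; omega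
    have e2 : m * (m * s - s) = m * ((m - 1) * s) := by rw [hms]
    have e3 : m * ((m - 1) * s) + m * s = m * (m * s) := by
      rw [← Nat.mul_add, e1]
    have e4 : (m + 1) * (m * s) = m * (m * s) + m * s := by ring
    have e5 : 3 ≤ m * ((m - 1) * s) := by
      have h1 : 3 ≤ m := by omega
      have h2 : 1 ≤ (m - 1) * s := Nat.one_le_iff_ne_zero.2 (by
        have : 0 < m - 1 := by omega
        have : 0 < s := by omega
        positivity)
      calc 3 = 3 * 1 := rfl
        _ ≤ m * ((m - 1) * s) := Nat.mul_le_mul h1 h2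
    have e6 : 3 ≤ m * s := by
      have h1 : 3 ≤ m := by omega
      have h2 : 1 ≤ s := by omega
      calc 3 = 3 * 1 := rfl
        _ ≤ m * s := Nat.mul_le_mul h1 h2
    refine ⟨(m + 1) * (m * s), m * (m * s - s) - 1, m * s + (m - 1) * s - 1, ?_, ?_, ?_, ?_, p, hp2,
      hfp, family m (m * s) s hsn (by omega) (ZMod p) (by rw [ZMod.card]; exact hp1)⟩
    · rw [e2]
      omega
    · omega
    · rw [e2, e4]
      omega
    · unfold Kstar
      rw [le_min_iff]
      constructor
      · rw [e2, e4]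
        omega
      · have h1 : (N : ℚ) ≤ (((m + 1) * (m * s) : ℕ) : ℚ) /
            (((m * s + (m - 1) * s - 1 : ℕ) : ℚ) + 1) := by
          rw [le_div_iff₀ (by positivity)]
          have h2 : N * (m * s + (m - 1) * s - 1 + 1) ≤ (m + 1) * (m * s) := by
            have h3 : m * s + (m - 1) * s - 1 + 1 = m * s + (m - 1) * s := by omega
            rw [h3]
            have h4 : (m - 1) * s ≤ m * s := by omega
            calc N * (m * s + (m - 1) * s) ≤ N * (m * s + m * s) := Nat.mul_le_mul le_rfl (by omega)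
              _ = (2 * N) * (m * s) := by ring
              _ ≤ (m + 1) * (m * s) := Nat.mul_le_mul (by omega) le_rfl
          exact_mod_cast h2
        have h5 := Nat.ceil_mono h1
        rwa [Nat.ceil_natCast] at h5
  · intro hcon
    obtain ⟨P, hP1, hP2, hP3⟩ := h9
    have := hcon 9 3 3 (by norm_num) (by norm_num) (by norm_num) (ZMod 3) 1 le_rfl P hP1 hP2
    rw [hP3, hk] at this
    norm_num at this

end Pool.Agent.Results.MP_c9b02e_lc.BetterRate
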